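import Pool.Agent.N642.Lip

/-!
# The weak Lipschitz Baumgartner axioms are false in ZFC

Both `BA_Lip(ω^ω)` and `BA_Lip(2^ω)` are false, so that they imply everything.
-/

set_option autoImplicit false

open Set Cardinal

namespace Pool.Agent.Results.MP_84ba36_lc.LipInconsistent

/-- `A ⊆ Z` is `ℵ₁`-dense: `|A ∩ U| = ℵ₁` for every nonempty open set `U`. -/
def AlephOneDense {Z : Type} [TopologicalSpace Z] (A : Set Z) : Prop :=
  ∀ U : Set Z, IsOpen U → U.Nonempty → #(A ∩ U : Set Z) = ℵ₁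

/-- `f` is Lipschitz with constant `1`: `f x` and `f y` agree below `k` if `x` and `y` do. -/
def IsLip {α : Type} (f : (ℕ → α) → ℕ → α) : Prop :=
  ∀ (k : ℕ) (x y : ℕ → α), (∀ i < k, x i = y i) → ∀ i < k, f x i = f y i

/-- The axiom `BA_Lip(Z)` for the space `Z` of all functions from `ω` to the discrete space `α`:
for all `ℵ₁`-dense `A, B ⊆ Z` there is a Lipschitz function `f : Z → Z` such that the restriction of
`f` to `A` is injective and `f[A] ⊆ B`. -/
def BALip (α : Type) [TopologicalSpace α] : Prop :=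
  ∀ A B : Set (ℕ → α), AlephOneDense A → AlephOneDense B →
    ∃ f : (ℕ → α) → ℕ → α, IsLip f ∧ InjOn f A ∧ f '' A ⊆ B

/-- Every union of at most `ℵ₁` many Lebesgue null sets of reals is a null set, that is,
`add(N) > ℵ₁`. -/
def AddNullGtAlephOne : Prop :=
  ∀ S : Set (Set ℝ), #S ≤ ℵ₁ → (∀ E ∈ S, MeasureTheory.volume E = 0) →
    MeasureTheory.volume (⋃₀ S) = 0

/-- For all large `k`: if `x` and `y` agree below `h k`, then `f x` and `f y` agree below `k`.
(Lipschitz functions with constant `1` satisfy this for `h k = k`, Lipschitz functions with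
arbitrary constants satisfy it for `h k = 2 * k`.) -/
def HasModulus {α : Type} (h : ℕ → ℕ) (f : (ℕ → α) → ℕ → α) : Prop :=
  ∃ K : ℕ, ∀ k ≥ K, ∀ x y : ℕ → α, (∀ i < h k, x i = y i) → ∀ i < k, f x i = f y i

/-- For all `ℵ₁`-dense `A, B ⊆ Z` there is a function with modulus of continuity `h` which maps `A`
injectively into `B`. -/
def BAMod (h : ℕ → ℕ) (α : Type) [TopologicalSpace α] : Prop :=
  ∀ A B : Set (ℕ → α), AlephOneDense A → AlephOneDense B →
    ∃ f : (ℕ → α) → ℕ → α, HasModulus h f ∧ InjOn f A ∧ f '' A ⊆ B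

/-- `BA_Lip(ω^ω)` and `BA_Lip(2^ω)` are false; so each of them implies `add(N) > ℵ₁`. Moreover, for
every `h : ω → ω` the analogous axioms for the functions with modulus of continuity `h` are
false. -/
theorem result :
    (¬ BALip ℕ ∧ ¬ BALip Bool) ∧
    ((BALip ℕ → AddNullGtAlephOne) ∧ (BALip Bool → AddNullGtAlephOne)) ∧
    ∀ h : ℕ → ℕ, ¬ BAMod h ℕ ∧ ¬ BAMod h Bool := by
  have key : ∀ h : ℕ → ℕ, ¬ BAMod h ℕ ∧ ¬ BAMod h Bool := by
    intro h
    constructor
    · intro hBA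
      obtain ⟨A, B, hA, hB, hAB⟩ := Pool.Agent.N642.Lip.main (α := ℕ) h
      obtain ⟨f, hf, h1, h2⟩ := hBA A B hA hB
      exact hAB f hf ⟨h1, h2⟩
    · intro hBA
      obtain ⟨A, B, hA, hB, hAB⟩ := Pool.Agent.N642.Lip.main (α := Bool) h
      obtain ⟨f, hf, h1, h2⟩ := hBA A B hA hB
      exact hAB f hf ⟨h1, h2⟩
  have h1 : ¬ BALip ℕ := fun hBA => (key fun k => k).1 fun A B hA hB => by
    obtain ⟨f, hf, h2⟩ := hBA A B hA hB
    exact ⟨f, ⟨0, fun k _ => hf k⟩, h2⟩
  have h2 : ¬ BALip Bool := fun hBA => (key fun k => k).2 fun A B hA hB => by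
    obtain ⟨f, hf, h2⟩ := hBA A B hA hB
    exact ⟨f, ⟨0, fun k _ => hf k⟩, h2⟩
  exact ⟨⟨h1, h2⟩, ⟨fun h => absurd h h1, fun h => absurd h h2⟩, key⟩

end Pool.Agent.Results.MP_84ba36_lc.LipInconsistent
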